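import Pool.Agent.W564.MM.Final
import Pool.Agent.W334.MM.BAS
import Pool.Agent.W410.MM.SHIFT
import Pool.Agent.W215.MM.KEY
import Pool.Agent.W975.MM.AVG
import Pool.Agent.W530.MM.INV
import Pool.Agent.W32.MM.Orb
import Pool.Agent.W806.MM.JOINT
import Pool.Agent.W622.MM.UNI

/-!
# MP_9ee088_an: the Chirikov-Taylor standard map at large parameters

Macroscopic ergodicity: as `|a| → ∞` the coordinates of the orbit become independent and uniformly
distributed; every invariant set is nearly independent of every given set; and all but `ε` of the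
orbits have asymptotic discrepancy at most `ε`, and are `ε`-dense, for every `a` with
`|a| ≥ a₀(ε)`.
-/

open MeasureTheory Filter Topology

namespace Pool.Agent.Results.MP_9ee088_an.MacroscopicErgodicity

/-- `T` is the standard map with parameter `a`:
`T(x, y) = (2x - y + a sin(2πx), x)` on the torus. -/
def IsStd (a : ℝ) (T : UnitAddCircle × UnitAddCircle → UnitAddCircle × UnitAddCircle) : Prop :=
  ∀ x y : ℝ, T ((x : UnitAddCircle), (y : UnitAddCircle)) =
    (((2 * x - y + a * Real.sin (2 * Real.pi * x) : ℝ) : UnitAddCircle), (x : UnitAddCircle))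

/-- The arc of the circle `ℝ/ℤ` of length `l` starting at `s` (half-open, for `0 ≤ l ≤ 1`). -/
def arc (s l : ℝ) : Set UnitAddCircle := (fun x : ℝ => (x : UnitAddCircle)) '' Set.Ico s (s + l)

theorem result :
    -- 1. for each `r` the second coordinates of `p, T p, …, T^(r-1) p` become independent and
    -- uniformly distributed
    (∀ (r : ℕ) (F : C(Fin r → UnitAddCircle, ℂ)) (ε : ℝ), 0 < ε → ∃ a₀ : ℝ, ∀ a : ℝ, a₀ ≤ |a| →
      ∀ T : UnitAddCircle × UnitAddCircle → UnitAddCircle × UnitAddCircle, IsStd a T →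
        ‖(∫ p : UnitAddCircle × UnitAddCircle, F (fun i => (T^[(i : ℕ)] p).2)) - ∫ z, F z‖ ≤ ε) ∧
    -- 2. every invariant set is nearly independent of a given measurable set `B`
    (∀ B : Set (UnitAddCircle × UnitAddCircle), MeasurableSet B → ∀ ε : ℝ, 0 < ε →
      ∃ a₀ : ℝ, ∀ a : ℝ, a₀ ≤ |a| →
      ∀ T : UnitAddCircle × UnitAddCircle → UnitAddCircle × UnitAddCircle, IsStd a T →
      ∀ A : Set (UnitAddCircle × UnitAddCircle), MeasurableSet A → T ⁻¹' A = A →
        |volume.real (A ∩ B) - volume.real A * volume.real B| ≤ ε) ∧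
    -- 3. the same, uniformly over all boxes `B`
    (∀ ε : ℝ, 0 < ε → ∃ a₀ : ℝ, ∀ a : ℝ, a₀ ≤ |a| →
      ∀ T : UnitAddCircle × UnitAddCircle → UnitAddCircle × UnitAddCircle, IsStd a T →
      ∀ A : Set (UnitAddCircle × UnitAddCircle), MeasurableSet A → T ⁻¹' A = A →
      ∀ s l s' l' : ℝ, 0 ≤ l → l ≤ 1 → 0 ≤ l' → l' ≤ 1 →
        |volume.real (A ∩ arc s l ×ˢ arc s' l') - volume.real A * (l * l')| ≤ ε) ∧
    -- 4. all but `ε` of the orbits have asymptotic discrepancy at most `ε` and are `ε`-dense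
    (∀ ε : ℝ, 0 < ε → ∃ a₀ : ℝ, ∀ a : ℝ, a₀ ≤ |a| →
      ∀ T : UnitAddCircle × UnitAddCircle → UnitAddCircle × UnitAddCircle, IsStd a T →
      ∃ E : Set (UnitAddCircle × UnitAddCircle), MeasurableSet E ∧ volume.real E ≤ ε ∧ ∀ p ∉ E,
        (∀ᶠ n : ℕ in atTop, ∀ s l s' l' : ℝ, 0 ≤ l → l ≤ 1 → 0 ≤ l' → l' ≤ 1 →
          |(Set.ncard {j | j < n ∧ T^[j] p ∈ arc s l ×ˢ arc s' l'} : ℝ) / n - l * l'| ≤ ε) ∧
        ∀ q : UnitAddCircle × UnitAddCircle, ∃ j : ℕ, dist (T^[j] p) q ≤ ε) := by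
  have hB : W564.MM.S_BAS := W334.MM.bas
  have hK : W564.MM.S_KEY := W215.MM.key hB (W410.MM.SHIFT.shift hB)
  have hA : W564.MM.S_AVG := W975.MM.avg hB hK
  have hI : W564.MM.S_INV := W530.MM.inv hB hA
  have hO : W564.MM.S_ORB := W32.MM.orb hB hI
  have hJ : W564.MM.S_JOINT := W806.MM.joint hB hK
  have hU : W564.MM.S_UNI := W622.MM.uni hI
  exact ⟨W564.MM.joint_T hB hJ, W564.MM.inv_T hB hI, W564.MM.uni_T hB hU, W564.MM.orb_T hB hO⟩

end Pool.Agent.Results.MP_9ee088_an.MacroscopicErgodicity
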