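import Pool.Agent.W564.MM.WM4
import Pool.Agent.W334.MM.BAS
import Pool.Agent.W410.MM.SHIFT
import Pool.Agent.W215.MM.KEY
import Pool.Agent.W806.MM.JOINT

/-!
# MP_9ee088_an: weak mixing up to `ε` of the Chirikov-Taylor standard map at large parameters

For `f ∈ L²` and `ε > 0` there are a window length `L` and a threshold `a₀` such that, for every
`|a| ≥ a₀`, the correlations of `f` with every `g` in the unit ball of `L²` are, in mean square over
every time window of length `L`, within `ε` of those of a weakly mixing map. In particular every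
eigenfunction of the Koopman operator is nearly orthogonal to `f - ∫ f`.
-/

open MeasureTheory Filter Topology

namespace Pool.Agent.Results.MP_9ee088_an.MacroscopicWeakMixing

/-- `T` is the standard map with parameter `a`:
`T(x, y) = (2x - y + a sin(2πx), x)` on the torus. -/
def IsStd (a : ℝ) (T : UnitAddCircle × UnitAddCircle → UnitAddCircle × UnitAddCircle) : Prop :=
  ∀ x y : ℝ, T ((x : UnitAddCircle), (y : UnitAddCircle)) =
    (((2 * x - y + a * Real.sin (2 * Real.pi * x) : ℝ) : UnitAddCircle), (x : UnitAddCircle))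

theorem result :
    -- 1. correlations are small in mean square over every time window of length `L`
    (∀ f : UnitAddCircle × UnitAddCircle → ℂ, MemLp f 2 volume → ∀ ε : ℝ, 0 < ε →
      ∃ L : ℕ, 1 ≤ L ∧ ∃ a₀ : ℝ, ∀ a : ℝ, a₀ ≤ |a| →
      ∀ T : UnitAddCircle × UnitAddCircle → UnitAddCircle × UnitAddCircle, IsStd a T →
      ∀ g : UnitAddCircle × UnitAddCircle → ℂ, MemLp g 2 volume → ∫ p, ‖g p‖ ^ 2 ≤ 1 →
      ∀ n : ℕ, (L : ℝ)⁻¹ * ∑ j ∈ Finset.range L,
          ‖(∫ p, f (T^[n + j] p) * g p) - (∫ p, f p) * ∫ p, g p‖ ^ 2 ≤ ε) ∧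
    -- 2. every eigenfunction of the Koopman operator is nearly orthogonal to `f - ∫ f`
    (∀ f : UnitAddCircle × UnitAddCircle → ℂ, MemLp f 2 volume → ∀ ε : ℝ, 0 < ε →
      ∃ a₀ : ℝ, ∀ a : ℝ, a₀ ≤ |a| →
      ∀ T : UnitAddCircle × UnitAddCircle → UnitAddCircle × UnitAddCircle, IsStd a T →
      ∀ g : UnitAddCircle × UnitAddCircle → ℂ, MemLp g 2 volume → ∫ p, ‖g p‖ ^ 2 ≤ 1 →
      ∀ c : ℂ, ‖c‖ = 1 → (∀ᵐ p, g (T p) = c * g p) →
        ‖(∫ p, f p * g p) - (∫ p, f p) * ∫ p, g p‖ ^ 2 ≤ ε) := by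
  have hB : W564.MM.S_BAS := W334.MM.bas
  have hK : W564.MM.S_KEY := W215.MM.key hB (W410.MM.SHIFT.shift hB)
  have hJ : W564.MM.S_JOINT := W806.MM.joint hB hK
  exact ⟨W564.MM.windowL2 hB hJ, W564.MM.eigen hB hJ⟩

end Pool.Agent.Results.MP_9ee088_an.MacroscopicWeakMixing
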